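import Pool.Agent.Helper5.SQ.Quad

/-!
Consequences for the values of quadratic polynomials of the statements for squares.
-/

set_option autoImplicit false

open Finset Filter

namespace Pool.Agent.Helper5.SQ

open Pool.Agent.Helper25.RC

/-- The inequality for squares gives the inequality for quadratic polynomials. -/
theorem quad_max {c0 c : ℝ} (hc0 : 0 < c0) (hc : 0 ≤ c)
    (h : ∀ (A : Set ℕ) (x : ℕ), 2 ≤ x → ∃ n : ℕ, n < 2 * x ∧
      c0 * (#(below (A ∩ {n | IsSquare n}) x) : ℝ) ^ 2 / x * Real.exp (c * √(Real.log x)) ≤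
        rep A n) (a b e : ℤ) (ha : 0 < a) :
    ∃ c1 : ℝ, 0 < c1 ∧ ∀ (A : Set ℕ) (x : ℕ), 2 ≤ x → ∃ n : ℕ, n < 2 * x ∧
      c1 * (#(below (A ∩ quad a b e) x) : ℝ) ^ 2 / x * Real.exp (c * √(Real.log x)) ≤
        rep A n := by
  set R : ℝ := ((4 * a + |b ^ 2 - 4 * a * e| : ℤ) : ℝ) with hR
  have hRpos : 0 < R := by
    have : (0 : ℤ) < 4 * a + |b ^ 2 - 4 * a * e| := by
      have := abs_nonneg (b ^ 2 - 4 * a * e)
      omega
    rw [hR]
    exact_mod_cast this
  refine ⟨c0 / R, by positivity, fun A x hx => ?_⟩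
  obtain ⟨A', x', h1, h2, h3, h4⟩ := transfer a b e ha A x (by omega)
  obtain ⟨m, -, hm⟩ := h A' x' (by omega)
  obtain ⟨n, hn, hn'⟩ := h4 m
  refine ⟨n, hn, le_trans ?_ (hm.trans (by exact_mod_cast hn'))⟩
  have hx0 : (0 : ℝ) < x := by positivity
  have hx1 : (0 : ℝ) < x' := by
    have : 0 < x' := by omega
    exact_mod_cast this
  have h5 : Real.log x ≤ Real.log x' := Real.log_le_log hx0 (by exact_mod_cast h1)
  have h6 : (#(below (A ∩ quad a b e) x) : ℝ) ≤ #(below (A' ∩ {n | IsSquare n}) x') := by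
    exact_mod_cast h3
  have h7 : c0 / R * (#(below (A ∩ quad a b e) x) : ℝ) ^ 2 / x ≤
      c0 * (#(below (A' ∩ {n | IsSquare n}) x') : ℝ) ^ 2 / x' := by
    calc c0 / R * (#(below (A ∩ quad a b e) x) : ℝ) ^ 2 / x
        = c0 * (#(below (A ∩ quad a b e) x) : ℝ) ^ 2 / (R * x) := by field_simp
      _ ≤ c0 * (#(below (A' ∩ {n | IsSquare n}) x') : ℝ) ^ 2 / x' := by gcongr
  calc _ ≤ c0 * (#(below (A' ∩ {n | IsSquare n}) x') : ℝ) ^ 2 / x' *
        Real.exp (c * √(Real.log x)) := by gcongr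
    _ ≤ _ := by gcongr

/-- Few squares in a set with bounded representation function: few values of quadratic
polynomials. -/
theorem quad_few {c : ℝ} (hc : 0 ≤ c)
    (h : ∀ g : ℝ, ∃ C : ℝ, ∀ A : Set ℕ, (∀ n : ℕ, (rep A n : ℝ) ≤ g) → ∀ x : ℕ, 2 ≤ x →
      (#(below (A ∩ {n | IsSquare n}) x) : ℝ) ≤ C * √x * Real.exp (-(c * √(Real.log x))))
    (g : ℝ) (a b e : ℤ) (ha : 0 < a) :
    ∃ C : ℝ, ∀ A : Set ℕ, (∀ n : ℕ, (rep A n : ℝ) ≤ g) → ∀ x : ℕ, 2 ≤ x →
      (#(below (A ∩ quad a b e) x) : ℝ) ≤ C * √x * Real.exp (-(c * √(Real.log x))) := by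
  set R : ℝ := ((4 * a + |b ^ 2 - 4 * a * e| : ℤ) : ℝ) with hR
  obtain ⟨C, hC⟩ := h g
  refine ⟨max C 0 * √R, fun A hA x hx => ?_⟩
  obtain ⟨A', x', h1, h2, h3, h4⟩ := transfer a b e ha A x (by omega)
  have h5 : ∀ m : ℕ, (rep A' m : ℝ) ≤ g := fun m => by
    obtain ⟨n, -, hn⟩ := h4 m
    exact le_trans (by exact_mod_cast hn) (hA n)
  have h6 := hC A' h5 x' (by omega)
  have hx0 : (0 : ℝ) < x := by positivity
  have h7 : Real.log x ≤ Real.log x' := Real.log_le_log hx0 (by exact_mod_cast h1)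
  have h8 : √(x' : ℝ) ≤ √R * √x := by
    rw [← Real.sqrt_mul' _ hx0.le]
    exact Real.sqrt_le_sqrt h2
  calc (#(below (A ∩ quad a b e) x) : ℝ) ≤ #(below (A' ∩ {n | IsSquare n}) x') := by
        exact_mod_cast h3
    _ ≤ C * √x' * Real.exp (-(c * √(Real.log x'))) := h6
    _ ≤ max C 0 * √x' * Real.exp (-(c * √(Real.log x'))) := by
        gcongr
        exact le_max_left _ _
    _ ≤ max C 0 * (√R * √x) * Real.exp (-(c * √(Real.log x))) := by
        have : (0 : ℝ) ≤ max C 0 := le_max_right _ _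
        gcongr
    _ = _ := by ring

/-- `log t / log log t` increases. -/
theorem ratio_mono {s t : ℝ} (hs : Real.exp (Real.exp 1) ≤ s) (hst : s ≤ t) :
    Real.log s / Real.log (Real.log s) ≤ Real.log t / Real.log (Real.log t) := by
  have he : (0 : ℝ) < Real.exp (Real.exp 1) := Real.exp_pos _
  have h1 : Real.exp 1 ≤ Real.log s := by
    rw [Real.le_log_iff_exp_le (lt_of_lt_of_le he hs)]
    exact hs
  have h2 : Real.log s ≤ Real.log t := Real.log_le_log (lt_of_lt_of_le he hs) hst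
  have h3 : Real.exp 1 ≤ Real.log t := h1.trans h2
  have he1 : (0 : ℝ) < Real.exp 1 := Real.exp_pos _
  have h4 := Real.log_div_self_antitoneOn (show Real.log s ∈ {x | Real.exp 1 ≤ x} from h1)
    (show Real.log t ∈ {x | Real.exp 1 ≤ x} from h3) h2
  have h5 : 0 < Real.log s := lt_of_lt_of_le he1 h1
  have h6 : 0 < Real.log t := lt_of_lt_of_le he1 h3
  have h7 : 1 ≤ Real.log (Real.log t) := by
    rw [Real.le_log_iff_exp_le h6]
    exact h3
  have h8 : 1 ≤ Real.log (Real.log s) := by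
    rw [Real.le_log_iff_exp_le h5]
    exact h1
  have h9 : 0 < Real.log (Real.log t) / Real.log t := by positivity
  have := one_div_le_one_div_of_le h9 h4
  rwa [one_div_div, one_div_div] at this

/-- If a set with many squares has a large representation function infinitely often, then so has a
set with many values of a quadratic polynomial. -/
theorem quad_often {c : ℝ} (hc : 0 ≤ c)
    (h : ∀ A : Set ℕ, ¬ Null (A ∩ {n | IsSquare n}) →
      ∃ᶠ n : ℕ in atTop, Real.exp (c * (Real.log n / Real.log (Real.log n))) ≤ rep A n)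
    (a b e : ℤ) (ha : 0 < a) (A : Set ℕ) (hA : ¬ Null (A ∩ quad a b e)) :
    ∃ᶠ n : ℕ in atTop, Real.exp (c * (Real.log n / Real.log (Real.log n))) ≤ rep A n := by
  set D : ℤ := b ^ 2 - 4 * a * e with hD
  set R : ℝ := ((4 * a + |D| : ℤ) : ℝ) with hR
  have hD0 : (0 : ℤ) ≤ |D| := abs_nonneg D
  have hD1 : D ≤ |D| := le_abs_self D
  have hD2 : -|D| ≤ D := neg_abs_le D
  have hRpos : 0 < R := by
    have : (0 : ℤ) < 4 * a + |D| := by omega
    rw [hR]
    exact_mod_cast this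
  have h1 : ¬ Null (img a D A ∩ {n | IsSquare n}) := by
    intro hN
    apply hA
    intro ε hε
    have h2 := hN (ε / √R) (by positivity)
    have h3 : Tendsto (top a D) atTop atTop :=
      tendsto_atTop_mono (le_top ha) tendsto_id
    filter_upwards [h3.eventually h2, eventually_ge_atTop 1] with x hx hx1
    have hx0 : (0 : ℝ) < x := by positivity
    have h4 : √((top a D x : ℕ) : ℝ) ≤ √R * √x := by
      rw [← Real.sqrt_mul' _ hx0.le]
      exact Real.sqrt_le_sqrt (top_le ha hx1)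
    calc (#(below (A ∩ quad a b e) x) : ℝ)
        ≤ #(below (img a D A ∩ {n | IsSquare n}) (top a D x)) := by
          exact_mod_cast count ha A x
      _ ≤ ε / √R * √((top a D x : ℕ) : ℝ) := hx
      _ ≤ ε / √R * (√R * √x) := by gcongr
      _ = ε * √x := by
          have : √R ≠ 0 := (Real.sqrt_pos.2 hRpos).ne'
          field_simp
  have h2 := h _ h1
  rw [Filter.frequently_atTop] at h2 ⊢
  intro N
  obtain ⟨k, hk⟩ := exists_nat_ge (Real.exp (Real.exp 1))
  obtain ⟨m, hm, hm'⟩ := h2 ((4 * a * ((N + k : ℕ) : ℤ) + 3 * |D|).toNat)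
  have h3 : 0 < rep (img a D A) m := by
    have : (0 : ℝ) < rep (img a D A) m := lt_of_lt_of_le (Real.exp_pos _) hm'
    exact_mod_cast this
  obtain ⟨p, -, q, -, hpq⟩ := exists_of_pos A m h3
  have h4 : 4 * a * ((N + k : ℕ) : ℤ) + 3 * |D| ≤ m := by
    have := Int.self_le_toNat (4 * a * ((N + k : ℕ) : ℤ) + 3 * |D|)
    have h5 : (((4 * a * ((N + k : ℕ) : ℤ) + 3 * |D|).toNat : ℕ) : ℤ) ≤ m := by exact_mod_cast hm
    linarith
  have h5 : N + k ≤ p + q := by
    by_contra hlt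
    have h6 : ((p + q : ℕ) : ℤ) + 1 ≤ ((N + k : ℕ) : ℤ) := by
      push_cast
      push_cast at hlt
      omega
    nlinarith
  have h6 : p + q ≤ m := by
    have h7 : (0 : ℤ) ≤ ((p + q : ℕ) : ℤ) := Int.natCast_nonneg _
    have h8 : (0 : ℤ) ≤ ((N + k : ℕ) : ℤ) := Int.natCast_nonneg _
    have h9 : ((p + q : ℕ) : ℤ) ≤ m := by
      by_cases hz : (0 : ℤ) ≤ D
      · nlinarith
      · have h10 : 3 * |D| ≤ m := by nlinarith
        have h11 : |D| = -D := abs_of_neg (by omega)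
        nlinarith
    exact_mod_cast h9
  refine ⟨p + q, by omega, ?_⟩
  have h7 : Real.exp (Real.exp 1) ≤ ((p + q : ℕ) : ℝ) := by
    have : (k : ℝ) ≤ ((p + q : ℕ) : ℝ) := by exact_mod_cast (by omega : k ≤ p + q)
    exact hk.trans this
  have h8 := ratio_mono h7 (show ((p + q : ℕ) : ℝ) ≤ (m : ℝ) by exact_mod_cast h6)
  calc Real.exp (c * (Real.log ((p + q : ℕ) : ℝ) / Real.log (Real.log ((p + q : ℕ) : ℝ))))
      ≤ Real.exp (c * (Real.log m / Real.log (Real.log m))) := by gcongr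
    _ ≤ rep (img a D A) m := hm'
    _ ≤ rep A (p + q) := by exact_mod_cast rep_img ha A m (p + q) hpq

end Pool.Agent.Helper5.SQ
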