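import Pool.Agent.Helper25.RC.Defs

/-!
From squares to the values of a quadratic polynomial: `4 a f(u) + D = (2 a u + b) ^ 2`, where `D` is
the discriminant of `f = a u ^ 2 + b u + e`.
-/

set_option autoImplicit false

open Finset Filter

namespace Pool.Agent.Helper5.SQ

open Pool.Agent.Helper25.RC

/-- the values of the polynomial `a u ^ 2 + b u + e` at the integers -/
def quad (a b e : ℤ) : Set ℕ := {n | ∃ u : ℤ, (n : ℤ) = a * u ^ 2 + b * u + e}

/-- an affine image of `A` -/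
def img (a D : ℤ) (A : Set ℕ) : Set ℕ := {m | ∃ n ∈ A, (m : ℤ) = 4 * a * n + D}

/-- the range which contains the image of `[0, x)` -/
def top (a D : ℤ) (x : ℕ) : ℕ := (4 * a * x + |D|).toNat

theorem top_cast {a D : ℤ} (ha : 0 < a) (x : ℕ) : ((top a D x : ℕ) : ℤ) = 4 * a * x + |D| := by
  unfold top
  rw [Int.toNat_of_nonneg]
  positivity

theorem le_top {a D : ℤ} (ha : 0 < a) (x : ℕ) : x ≤ top a D x := by
  have h := top_cast (D := D) ha x
  have h1 : (0 : ℤ) ≤ |D| := abs_nonneg D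
  have h2 : (x : ℤ) ≤ 4 * a * x := by nlinarith [Int.natCast_nonneg x]
  omega

theorem top_le {a D : ℤ} (ha : 0 < a) {x : ℕ} (hx : 1 ≤ x) :
    ((top a D x : ℕ) : ℝ) ≤ (4 * a + |D| : ℤ) * x := by
  have h := top_cast (D := D) ha x
  have h1 : (0 : ℤ) ≤ |D| := abs_nonneg D
  have h2 : ((top a D x : ℕ) : ℤ) ≤ (4 * a + |D|) * x := by
    rw [h]
    have : (1 : ℤ) ≤ x := by exact_mod_cast hx
    nlinarith
  exact_mod_cast h2

/-- The values of the polynomial in `A` give squares in the image. -/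
theorem count {a b e : ℤ} (ha : 0 < a) (A : Set ℕ) (x : ℕ) :
    #(below (A ∩ quad a b e) x) ≤
      #(below (img a (b ^ 2 - 4 * a * e) A ∩ {n | IsSquare n}) (top a (b ^ 2 - 4 * a * e) x)) := by
  set D : ℤ := b ^ 2 - 4 * a * e with hD
  have key : ∀ n ∈ below (A ∩ quad a b e) x, n < x ∧ n ∈ A ∧
      ∃ v : ℤ, 4 * a * (n : ℤ) + D = v ^ 2 := by
    intro n hn
    rw [mem_below] at hn
    obtain ⟨h1, h2, u, hu⟩ := hn
    refine ⟨h1, h2, 2 * a * u + b, ?_⟩
    rw [hu, hD]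
    ring
  refine card_le_card_of_injOn (fun n : ℕ => (4 * a * (n : ℤ) + D).toNat) ?_ ?_
  · intro n hn
    obtain ⟨h1, h2, v, hv⟩ := key n hn
    have h3 : (((4 * a * (n : ℤ) + D).toNat : ℕ) : ℤ) = 4 * a * (n : ℤ) + D :=
      Int.toNat_of_nonneg (by rw [hv]; positivity)
    rw [SetLike.mem_coe, mem_below]
    refine ⟨?_, ⟨n, h2, h3⟩, v.natAbs, ?_⟩
    · have h4 := top_cast (D := D) ha x
      have h5 : D ≤ |D| := le_abs_self D
      have h6 : (n : ℤ) < x := by exact_mod_cast h1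
      have h7 : 4 * a * (n : ℤ) < 4 * a * x := by nlinarith
      show (4 * a * (n : ℤ) + D).toNat < top a D x
      omega
    · show (4 * a * (n : ℤ) + D).toNat = v.natAbs * v.natAbs
      have h4 : ((v.natAbs * v.natAbs : ℕ) : ℤ) = v ^ 2 := by
        rw [Int.natAbs_mul_self]
        ring
      have : (((4 * a * (n : ℤ) + D).toNat : ℕ) : ℤ) = ((v.natAbs * v.natAbs : ℕ) : ℤ) := by
        rw [h3, h4, hv]
      exact_mod_cast this
  · intro n hn n' hn' h
    obtain ⟨-, -, v, hv⟩ := key n hn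
    obtain ⟨-, -, v', hv'⟩ := key n' hn'
    have h3 : (((4 * a * (n : ℤ) + D).toNat : ℕ) : ℤ) = 4 * a * (n : ℤ) + D :=
      Int.toNat_of_nonneg (by rw [hv]; positivity)
    have h3' : (((4 * a * (n' : ℤ) + D).toNat : ℕ) : ℤ) = 4 * a * (n' : ℤ) + D :=
      Int.toNat_of_nonneg (by rw [hv']; positivity)
    have h4 : 4 * a * (n : ℤ) + D = 4 * a * (n' : ℤ) + D := by
      rw [← h3, ← h3']
      exact_mod_cast h
    have h5 : (4 * a) * (n : ℤ) = (4 * a) * (n' : ℤ) := by linarith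
    have h6 : (n : ℤ) = n' := mul_left_cancel₀ (by positivity) h5
    exact_mod_cast h6

/-- Representations in the image come from representations in `A`. -/
theorem rep_img {a D : ℤ} (ha : 0 < a) (A : Set ℕ) (m n : ℕ) (h : (m : ℤ) = 4 * a * n + 2 * D) :
    rep (img a D A) m ≤ rep A n := by
  classical
  have h4 : (0 : ℤ) < 4 * a := by positivity
  have inv : ∀ p k : ℕ, (p : ℤ) = 4 * a * k + D → (((p : ℤ) - D) / (4 * a)).toNat = k := by
    intro p k hk
    have : (p : ℤ) - D = 4 * a * k := by linarith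
    rw [this, Int.mul_ediv_cancel_left _ h4.ne']
    simp
  unfold rep
  refine card_le_card_of_injOn (fun p : ℕ × ℕ =>
    ((((p.1 : ℤ) - D) / (4 * a)).toNat, (((p.2 : ℤ) - D) / (4 * a)).toNat)) ?_ ?_
  · rintro ⟨p, q⟩ hp
    rw [SetLike.mem_coe, mem_filter, HasAntidiagonal.mem_antidiagonal] at hp
    obtain ⟨h1, ⟨k, hk, hpk⟩, ⟨l, hl, hql⟩⟩ := hp
    rw [SetLike.mem_coe, mem_filter, HasAntidiagonal.mem_antidiagonal]
    simp only at h1 hpk hql ⊢
    rw [inv p k hpk, inv q l hql]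
    refine ⟨?_, hk, hl⟩
    have h5 : ((p + q : ℕ) : ℤ) = m := by exact_mod_cast h1
    push_cast at h5
    have h6 : (4 * a) * ((k + l : ℕ) : ℤ) = (4 * a) * (n : ℤ) := by
      push_cast
      linarith
    exact_mod_cast mul_left_cancel₀ h4.ne' h6
  · rintro ⟨p, q⟩ hp ⟨p', q'⟩ hp' he
    rw [SetLike.mem_coe, mem_filter, HasAntidiagonal.mem_antidiagonal] at hp hp'
    obtain ⟨h1, ⟨k, hk, hpk⟩, ⟨l, hl, hql⟩⟩ := hp
    obtain ⟨h1', ⟨k', hk', hpk'⟩, ⟨l', hl', hql'⟩⟩ := hp'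
    simp only [Prod.mk.injEq] at h1 h1' hpk hql hpk' hql' he ⊢
    rw [inv p k hpk, inv q l hql, inv p' k' hpk', inv q' l' hql'] at he
    obtain ⟨e1, e2⟩ := he
    subst e1 e2
    constructor
    · have : (p : ℤ) = p' := by rw [hpk, hpk']
      exact_mod_cast this
    · have : (q : ℤ) = q' := by rw [hql, hql']
      exact_mod_cast this

/-- A sum of two elements of the image comes from a sum of two elements of `A`. -/
theorem exists_of_pos {a D : ℤ} (A : Set ℕ) (m : ℕ) (h : 0 < rep (img a D A) m) :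
    ∃ k ∈ A, ∃ l ∈ A, (m : ℤ) = 4 * a * (k + l : ℕ) + 2 * D := by
  classical
  unfold rep at h
  obtain ⟨⟨p, q⟩, hp⟩ := card_pos.1 h
  rw [mem_filter, HasAntidiagonal.mem_antidiagonal] at hp
  obtain ⟨h1, ⟨k, hk, hpk⟩, ⟨l, hl, hql⟩⟩ := hp
  simp only at h1 hpk hql
  refine ⟨k, hk, l, hl, ?_⟩
  have h5 : ((p + q : ℕ) : ℤ) = m := by exact_mod_cast h1
  push_cast at h5 ⊢
  linarith

theorem rep_mono {A B : Set ℕ} (h : A ⊆ B) (n : ℕ) : rep A n ≤ rep B n := by
  classical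
  unfold rep
  refine card_le_card fun p hp => ?_
  rw [mem_filter] at hp ⊢
  exact ⟨hp.1, h hp.2.1, h hp.2.2⟩

/-- The image of the part below `x`. -/
theorem rep_img_lt {a D : ℤ} (ha : 0 < a) (A : Set ℕ) {x : ℕ} (hx : 1 ≤ x) (m : ℕ) :
    ∃ n < 2 * x, rep (img a D (A ∩ Set.Iio x)) m ≤ rep A n := by
  rcases Nat.eq_zero_or_pos (rep (img a D (A ∩ Set.Iio x)) m) with h | h
  · exact ⟨0, by omega, by omega⟩
  · obtain ⟨k, hk, l, hl, hm⟩ := exists_of_pos _ _ h
    refine ⟨k + l, ?_, ?_⟩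
    · have h1 : k < x := hk.2
      have h2 : l < x := hl.2
      omega
    · exact (rep_img ha _ m (k + l) hm).trans (rep_mono Set.inter_subset_left _)

theorem below_inter (A B : Set ℕ) (x : ℕ) : below ((A ∩ Set.Iio x) ∩ B) x = below (A ∩ B) x := by
  ext n
  simp only [mem_below, Set.mem_inter_iff, Set.mem_Iio]
  tauto

/-- The transfer: a set `A'` whose number of squares below `x'` is at least the number of values of
the polynomial in `A` below `x`, and whose representation function is bounded by that of `A`. -/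
theorem transfer (a b e : ℤ) (ha : 0 < a) (A : Set ℕ) (x : ℕ) (hx : 1 ≤ x) :
    ∃ (A' : Set ℕ) (x' : ℕ), x ≤ x' ∧ (x' : ℝ) ≤ (4 * a + |b ^ 2 - 4 * a * e| : ℤ) * x ∧
      #(below (A ∩ quad a b e) x) ≤ #(below (A' ∩ {n | IsSquare n}) x') ∧
      ∀ m : ℕ, ∃ n < 2 * x, rep A' m ≤ rep A n := by
  refine ⟨img a (b ^ 2 - 4 * a * e) (A ∩ Set.Iio x), top a (b ^ 2 - 4 * a * e) x, le_top ha x,
    top_le ha hx, ?_, fun m => rep_img_lt ha A hx m⟩
  rw [← below_inter A (quad a b e) x]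
  exact count ha _ _

end Pool.Agent.Helper5.SQ
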